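import Pool.Agent.helper70.FI4E.SpecK
import Pool.Agent.helper20.FI4.KLE

/-!
# Project fi4e (MP_baa4d7_al), block E3: row ELE
-/

set_option autoImplicit false

namespace Pool.Agent.FI4E

open Pool.Agent.helper58.DC Pool.Agent.DI Pool.Agent.GR Pool.Agent.OB Pool.Agent.DR Pool.Agent.FI Pool.Agent.FI3 Pool.Agent.FI4

/-- the trace -/
theorem ELE_tr (hB2 : B2_stmt) {G : Type} [Group G] [Finite G] (p : ℕ) (H : Subgroup G) (S : Set (G → ℂ))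
    (hS : S ⊆ IrrOn H) (α : MulAut G) :
    tS p H S α = (Nat.card H : ℂ)⁻¹ * ∑ᶠ v ∈ {v : G | v ∈ H ∧ PReg p v}, Sf S (α⁻¹ v) v := by
  have hfin : S.Finite := (hB2 G H).1.subset hS
  have h1 : tS p H S α =
      ∑ᶠ ψ ∈ S, (Nat.card H : ℂ)⁻¹ * ∑ᶠ v ∈ {v : G | v ∈ H ∧ PReg p v}, ψ (α⁻¹ v) * ψ v⁻¹ := by
    unfold tS
    refine finsum_mem_congr rfl fun ψ _ => ?_
    unfold EE
    rw [div_eq_inv_mul]
    rfl
  rw [h1, ← mul_finsum_mem, finsum_mem_comm _ hfin (Set.toFinite _)]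
  rfl

section

variable {G Gb : Type} [Group G] [Finite G] [Group Gb] [Finite Gb]

open Classical in
theorem ELE_A1 (hKIN : KIN_stmt) {p : ℕ} {R : Subgroup G} {π : G →* Gb} (hQ : Qn p R π) (Hb : Subgroup Gb)
    (S : Set (G → ℂ)) (hS : S ⊆ IrrOn (Hb.comap π)) (w v : G) :
    Sf (dn π Hb S) (π w) (π v) =
      ∑ᶠ ψ ∈ S, (if (∀ r ∈ R, ∀ x, ψ (r * x) = ψ x) then ψ w * ψ v⁻¹ else 0) := by
  rw [← KLE_sep S (fun ψ => ∀ r ∈ R, ∀ x, ψ (r * x) = ψ x) (fun ψ => ψ w * ψ v⁻¹)]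
  unfold Sf
  refine finsum_mem_eq_of_bijOn (fun f : Gb → ℂ => fun g => f (π g)) (KLE_bij hKIN hQ Hb S hS) ?_
  intro f _
  show f (π w) * f (π v)⁻¹ = f (π w) * f (π v⁻¹)
  rw [map_inv]

theorem ELE_A2 (hKIN : KIN_stmt) (hKAV : KAV_stmt) (hB2 : B2_stmt) {p : ℕ} {R : Subgroup G} {π : G →* Gb}
    (hQ : Qn p R π) (Hb : Subgroup Gb)
    (S : Set (G → ℂ)) (hS : S ⊆ IrrOn (Hb.comap π)) (hRH : R ≤ Hb.comap π)
    (hn : ∀ r ∈ R, ∀ g : G, g * r * g⁻¹ ∈ R) (w v : G) :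
    (Nat.card R : ℂ) * Sf (dn π Hb S) (π w) (π v) = ∑ᶠ r ∈ (R : Set G), Sf S w (v * r) := by
  classical
  have hfin : S.Finite := (hB2 G (Hb.comap π)).1.subset hS
  rw [ELE_A1 hKIN hQ Hb S hS w v, mul_finsum_mem]
  have h1 : ∑ᶠ ψ ∈ S, (Nat.card R : ℂ) * (if (∀ r ∈ R, ∀ x, ψ (r * x) = ψ x) then ψ w * ψ v⁻¹ else 0) =
      ∑ᶠ ψ ∈ S, ∑ᶠ r ∈ (R : Set G), ψ w * ψ (r * v⁻¹) := by
    refine finsum_mem_congr rfl fun ψ hψ => ?_
    rw [← mul_finsum_mem, hKAV G R (Hb.comap π) hRH (fun r hr h _ => hn r hr h) ψ (hS hψ) v⁻¹]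
    by_cases hinv : ∀ r ∈ R, ∀ x, ψ (r * x) = ψ x
    · rw [if_pos hinv, if_pos hinv]
      ring
    · rw [if_neg hinv, if_neg hinv, mul_zero, mul_zero]
  rw [h1, finsum_mem_comm _ hfin (Set.toFinite _)]
  refine finsum_mem_eq_of_bijOn (fun r => r⁻¹) ⟨?_, ?_, ?_⟩ ?_
  · intro r hr
    exact R.inv_mem hr
  · intro a _ b _ hab
    exact inv_injective hab
  · intro r hr
    exact ⟨r⁻¹, R.inv_mem hr, inv_inv r⟩
  · intro r _
    show ∑ᶠ ψ ∈ S, ψ w * ψ (r * v⁻¹) = Sf S w (v * r⁻¹)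
    unfold Sf
    refine finsum_mem_congr rfl fun ψ _ => ?_
    rw [mul_inv_rev, inv_inv]

theorem ELE_A3 (hKIN : KIN_stmt) (hKAV : KAV_stmt) (hKPR : KPR_stmt) (hBR0 : BR0_stmt) (hSFC : SFC_stmt)
    (hB2 : B2_stmt) {p : ℕ} {M : Ideal (integralClosure ℤ ℂ)} (hM : Setup p M) {R : Subgroup G}
    {π : G →* Gb} (hQ : Qn p R π) (Hb : Subgroup Gb)
    (S : Set (G → ℂ)) (hS : BC M (Hb.comap π) S) (hRH : R ≤ Hb.comap π)
    (hn : ∀ r ∈ R, ∀ g : G, g * r * g⁻¹ ∈ R) (w v : G) (hw : w ∈ Hb.comap π) (hwr : PReg p w)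
    (hv : v ∈ Hb.comap π) (hvr : PReg p v) :
    (Nat.card R : ℂ) * Sf (dn π Hb S) (π w) (π v) =
      ({r : G | r ∈ R ∧ PReg p (v * r)}.ncard : ℂ) * Sf S w v := by
  classical
  have : Fact p.Prime := ⟨hM.pr⟩
  rw [ELE_A2 hKIN hKAV hB2 hQ Hb S hS.sub hRH hn w v, ← KLE_const]
  refine Eq.trans ?_ (KLE_sep (R : Set G) (fun r => PReg p (v * r)) (fun _ => Sf S w v)).symm
  refine finsum_mem_congr rfl fun r hr => ?_
  have hrH : r ∈ Hb.comap π := hRH hr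
  have hvrH : v * r ∈ Hb.comap π := (Hb.comap π).mul_mem hv hrH
  by_cases hreg : PReg p (v * r)
  · rw [if_pos hreg]
    obtain ⟨s, hs, hvs⟩ := (hKPR p G Gb R π hQ).2.2 v hvr r hr hreg
    rw [hvs]
    exact ((hSFC G (Hb.comap π) S hS.sub).1 w v s (hRH hs)).2
  · rw [if_neg hreg]
    obtain ⟨y, u, hyu, hy, hu, hc, hyz, huz⟩ := KLE_dec hM.pr (v * r)
    have hyH : y ∈ Hb.comap π := (Subgroup.zpowers_le.2 hvrH) hyz
    have huH : u ∈ Hb.comap π := (Subgroup.zpowers_le.2 hvrH) huz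
    have hy1 : y ≠ 1 := by
      rintro rfl
      rw [one_mul] at hyu
      exact hreg (hyu ▸ hu)
    have h1 := hBR0 p M hM G (Hb.comap π) S hS 1 (Hb.comap π).one_mem w hw y hyH u huH
      ⟨0, one_pow _⟩ hy hwr hu (Commute.one_left w) hc ?_
    · rw [one_mul, hyu] at h1
      exact h1
    · intro h _ h2
      apply hy1
      rw [← h2]
      group

end

theorem ELE (hKIN : KIN_stmt) (hKAV : KAV_stmt) (hKPR : KPR_stmt) (hKSU : KSU_stmt) (hKG1 : KG1_stmt) (hBR0 : BR0_stmt) (hSFC : SFC_stmt) (hEQA : EQA_stmt) (hB2 : B2_stmt) : ELE_stmt := by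
  intro p M hM G Gb _ _ _ _ R π hQ Hb S hS α αb hQa hHb
  have : Fact p.Prime := ⟨hM.pr⟩
  have hdn : dn π Hb S ⊆ IrrOn Hb := fun f hf => hf.1
  obtain ⟨hn, -, hN, -⟩ := hKG1 p G Gb R π hQ
  obtain ⟨hRH, hcard, -⟩ := hN Hb
  have hR0 : (Nat.card R : ℂ) ≠ 0 := by exact_mod_cast Nat.card_pos.ne'
  have hinv : ∀ v : G, αb⁻¹ (π v) = π (α⁻¹ v) := by
    intro v
    apply αb.injective
    rw [MulAut.apply_inv_self, hQa, MulAut.apply_inv_self]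
  have hmem : ∀ v ∈ Hb.comap π, α⁻¹ v ∈ Hb.comap π := by
    intro v hv
    have h1 : π v ∈ am αb Hb := by
      rw [hHb]
      exact hv
    rw [mem_am, hinv] at h1
    exact h1
  have hreg : ∀ v : G, PReg p v → PReg p (α⁻¹ v) := by
    intro v hv
    unfold PReg at hv ⊢
    rwa [MulEquiv.orderOf_eq]
  rw [ELE_tr hB2 p Hb (dn π Hb S) hdn αb, ELE_tr hB2 p (Hb.comap π) S hS.sub α]
  have h1 : ∑ᶠ y ∈ {y : Gb | y ∈ Hb ∧ PReg p y}, Sf (dn π Hb S) (αb⁻¹ y) y =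
      (Nat.card R : ℂ)⁻¹ * ∑ᶠ v ∈ {v : G | v ∈ Hb.comap π ∧ PReg p v}, Sf S (α⁻¹ v) v := by
    rw [hKSU p G Gb R π hQ Hb (fun y => Sf (dn π Hb S) (αb⁻¹ y) y), mul_finsum_mem]
    refine finsum_mem_congr rfl fun v hv => ?_
    have h2 := ELE_A3 hKIN hKAV hKPR hBR0 hSFC hB2 hM hQ Hb S hS hRH hn (α⁻¹ v) v (hmem v hv.1)
      (hreg v hv.2) hv.1 hv.2
    have h3 : ({r : G | r ∈ R ∧ PReg p (v * r)}.ncard : ℂ) ≠ 0 := by
      have h4 : 0 < {r : G | r ∈ R ∧ PReg p (v * r)}.ncard := by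
        rw [Set.ncard_pos]
        exact ⟨1, R.one_mem, by rw [mul_one]; exact hv.2⟩
      exact_mod_cast h4.ne'
    rw [hinv]
    field_simp
    linear_combination h2
  rw [h1, hcard]
  push_cast
  rw [mul_inv]
  ring

end Pool.Agent.FI4E
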